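import Mathlib

set_option autoImplicit false

namespace Pool.Agent.Results.MP_374efc_lc.FactorialBound

/-- The word sequence of the D0L system with alphabet `Fin n`, letter images `h`, axiom `w`. -/
def seq {n : ℕ} (h : Fin n → List (Fin n)) (w : List (Fin n)) (m : ℕ) : List (Fin n) :=
  (fun u : List (Fin n) => u.flatMap h)^[m] w

/-- The sequence of the D0L system satisfies the locally catenative formula `v` (a nonempty
tuple of positive integers) with cut `p`. -/
def Satisfies {n : ℕ} (h : Fin n → List (Fin n)) (w : List (Fin n)) (v : List ℕ) (p : ℕ) : Prop :=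
  v ≠ [] ∧ (∀ i ∈ v, 0 < i) ∧ (∀ i ∈ v, i ≤ p) ∧
    ∀ m : ℕ, p ≤ m → seq h w m = (v.map (fun i => seq h w (m - i))).flatten

/-- The D0L system is locally catenative of depth `d`: with some cut it satisfies a locally
catenative formula `v` whose depth (the maximum of its entries) is `d`. -/
def LocCatOfDepth {n : ℕ} (h : Fin n → List (Fin n)) (w : List (Fin n)) (d : ℕ) : Prop :=
  ∃ v : List ℕ, ∃ p : ℕ, Satisfies h w v p ∧ v.foldr max 0 = d

theorem seq_succ {n : ℕ} (h : Fin n → List (Fin n)) (w : List (Fin n)) (m : ℕ) :
    seq h w (m + 1) = (seq h w m).flatMap h := by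
  unfold seq
  rw [Function.iterate_succ_apply']

theorem flatMap_flatten {n : ℕ} (h : Fin n → List (Fin n)) (L : List (List (Fin n))) :
    L.flatten.flatMap h = (L.map (fun u => u.flatMap h)).flatten := by
  induction L with
  | nil => rfl
  | cons x t ih => simp [List.flatMap_append, ih]

theorem satisfies_of_one {n : ℕ} (h : Fin n → List (Fin n)) (w : List (Fin n)) (v : List ℕ)
    (p : ℕ) (hv : v ≠ []) (hpos : ∀ i ∈ v, 0 < i) (hle : ∀ i ∈ v, i ≤ p)
    (h0 : seq h w p = (v.map (fun i => seq h w (p - i))).flatten) : Satisfies h w v p := by
  refine ⟨hv, hpos, hle, ?_⟩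
  intro m hm
  induction m, hm using Nat.le_induction with
  | base => exact h0
  | succ m hm ih =>
    rw [seq_succ, ih, flatMap_flatten, List.map_map]
    congr 1
    apply List.map_congr_left
    intro i hi
    have h1 : i ≤ m := (hle i hi).trans hm
    have h2 : m + 1 - i = (m - i) + 1 := by omega
    simp only [Function.comp]
    rw [h2, seq_succ]

theorem flatMap_injective {n : ℕ} (h : Fin n → List (Fin n)) (hne : ∀ a, h a ≠ [])
    (hs : ∀ a b, h a <:+ h b → a = b) :
    Function.Injective (fun u : List (Fin n) => u.flatMap h) := by
  intro u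
  induction u using List.reverseRecOn with
  | nil =>
    intro v hv
    rcases List.eq_nil_or_concat v with rfl | ⟨v', b, rfl⟩
    · rfl
    · exfalso
      simp at hv
      exact hne b hv.2
  | append_singleton u a ih =>
    intro v hv
    rcases List.eq_nil_or_concat v with rfl | ⟨v', b, rfl⟩
    · exfalso
      simp at hv
      exact hne a hv.2
    · simp only [List.concat_eq_append, List.flatMap_append, List.flatMap_cons,
        List.flatMap_nil, List.append_nil] at hv ⊢
      have h1 : h a <:+ v'.flatMap h ++ h b := ⟨_, hv⟩
      have h2 : h b <:+ v'.flatMap h ++ h b := ⟨_, rfl⟩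
      have hab : a = b := by
        rcases List.suffix_or_suffix_of_suffix h1 h2 with h3 | h3
        · exact hs a b h3
        · exact (hs b a h3).symm
      subst hab
      have h4 : u.flatMap h = v'.flatMap h := List.append_cancel_right hv
      rw [ih h4]

theorem pull_back {n : ℕ} (h : Fin n → List (Fin n)) (w : List (Fin n))
    (hinj : Function.Injective (fun u : List (Fin n) => u.flatMap h)) (v : List ℕ) (p q : ℕ)
    (hs : Satisfies h w v p) (hq : ∀ i ∈ v, i ≤ q) :
    seq h w q = (v.map (fun i => seq h w (q - i))).flatten := by
  have key : ∀ t : ℕ, seq h w (q + t) = (v.map (fun i => seq h w (q + t - i))).flatten →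
      seq h w q = (v.map (fun i => seq h w (q - i))).flatten := by
    intro t
    induction t with
    | zero => intro h0; simpa using h0
    | succ t ih =>
      intro h0
      apply ih
      apply hinj
      change (seq h w (q + t)).flatMap h = _
      rw [← seq_succ]
      change _ = (List.map (fun i => seq h w (q + t - i)) v).flatten.flatMap h
      rw [flatMap_flatten, List.map_map]
      rw [add_assoc, h0]
      congr 1
      apply List.map_congr_left
      intro i hi
      have h1 : i ≤ q := hq i hi
      have h2 : q + (t + 1) - i = (q + t - i) + 1 := by omega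
      simp only [Function.comp]
      rw [h2, seq_succ]
  apply key p
  exact hs.2.2.2 (q + p) (by omega)

/-- Search for a factorization of a word over the words in `X`. -/
def parses {α : Type} [DecidableEq α] (X : List (List α)) : ℕ → List α → Bool
  | 0, w => w.isEmpty
  | k + 1, w => w.isEmpty || X.any (fun x => x.isPrefixOf w && parses X k (w.drop x.length))

theorem parses_complete {α : Type} [DecidableEq α] (X : List (List α)) (hX : ∀ x ∈ X, x ≠ [])
    (k : ℕ) (L : List (List α)) (hL : ∀ x ∈ L, x ∈ X) (hk : L.flatten.length ≤ k) :
    parses X k L.flatten = true := by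
  induction k generalizing L with
  | zero =>
    have : L.flatten = [] := List.eq_nil_of_length_eq_zero (by omega)
    simp [parses, this]
  | succ k ih =>
    cases L with
    | nil => simp [parses]
    | cons x t =>
      have hx : x ∈ X := hL x (by simp)
      have hxn : x ≠ [] := hX x hx
      have hxl : 0 < x.length := List.length_pos_iff.mpr hxn
      simp only [parses, List.flatten_cons, Bool.or_eq_true, List.any_eq_true,
        Bool.and_eq_true]
      right
      refine ⟨x, hx, ?_, ?_⟩
      · simp
      · rw [List.drop_left]
        apply ih t (fun y hy => hL y (by simp [hy]))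
        simp only [List.flatten_cons, List.length_append] at hk
        omega

theorem le_foldr_max (v : List ℕ) (i : ℕ) (hi : i ∈ v) : i ≤ v.foldr max 0 := by
  induction v with
  | nil => simp at hi
  | cons a t ih =>
    simp only [List.foldr_cons]
    rcases List.mem_cons.mp hi with rfl | h
    · exact le_max_left _ _
    · exact (ih h).trans (le_max_right _ _)

theorem not_depth_le {n : ℕ} (h : Fin n → List (Fin n)) (w : List (Fin n)) (q : ℕ)
    (hinj : Function.Injective (fun u : List (Fin n) => u.flatMap h))
    (X : List (List (Fin n))) (hX : X = (List.range q).map (seq h w)) (hne : ∀ x ∈ X, x ≠ [])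
    (hp : parses X (seq h w q).length (seq h w q) = false) :
    ∀ d ≤ q, ¬ LocCatOfDepth h w d := by
  rintro d hd ⟨v, p, hs, hv⟩
  have hq : ∀ i ∈ v, i ≤ q := fun i hi => ((le_foldr_max v i hi).trans hv.le).trans hd
  have h1 := pull_back h w hinj v p q hs hq
  have h2 : parses X (seq h w q).length (seq h w q) = true := by
    conv_lhs => rw [h1]
    apply parses_complete X hne
    · intro x hx
      rw [List.mem_map] at hx
      obtain ⟨i, hi, rfl⟩ := hx
      rw [hX, List.mem_map]
      refine ⟨q - i, ?_, rfl⟩
      rw [List.mem_range]
      have := hs.2.1 i hi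
      have := hq i hi
      omega
    · rw [← h1]
  rw [h2] at hp
  exact absurd hp (by simp)

/-- The conjectured bound `n!` on the depth of locally catenative D0L systems over `n` letters
fails for `n = 2` and for `n = 3`. -/
theorem result :
    (∃ (h : Fin 2 → List (Fin 2)) (w : List (Fin 2)),
      LocCatOfDepth h w 3 ∧ ∀ d ≤ Nat.factorial 2, ¬ LocCatOfDepth h w d) ∧
    (∃ (h : Fin 3 → List (Fin 3)) (w : List (Fin 3)),
      LocCatOfDepth h w 7 ∧ ∀ d ≤ Nat.factorial 3, ¬ LocCatOfDepth h w d) := by
  constructor
  · refine ⟨![[0, 0, 1], [0]], [0, 1], ?_, ?_⟩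
    · refine ⟨[1, 2, 2, 3, 2], 3, ?_, by decide⟩
      apply satisfies_of_one
      · decide
      · decide
      · decide
      · decide +kernel
    · apply not_depth_le _ _ _ (flatMap_injective _ (by decide) (by decide)) _ rfl
      · decide +kernel
      · decide +kernel
  · refine ⟨![[1], [0, 1, 2], [0]], [0, 1], ?_, ?_⟩
    · refine ⟨[2, 5, 6, 6, 7, 4, 5, 2, 3], 7, ?_, by decide⟩
      apply satisfies_of_one
      · decide
      · decide
      · decide
      · decide +kernel
    · apply not_depth_le _ _ _ (flatMap_injective _ (by decide) (by decide)) _ rfl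
      · decide +kernel
      · decide +kernel

end Pool.Agent.Results.MP_374efc_lc.FactorialBound
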