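import Pool.Agent.H.MP_374efc_lc.Oe.Fin

/-!
# MP_374efc_lc: it is decidable whether a D0L system is locally catenative and has a word which is a prefix (or a
suffix) of the next word

Equivalently, it is decidable whether a D0L system satisfies a locally catenative formula whose first or last entry is
`1`.  In particular the locally catenative property is decidable for the D0L systems such that some word is a prefix of
the next word or some word is a suffix of the next word.
-/

set_option autoImplicit false

namespace Pool.Agent.Results.MP_374efc_lc.OneEnd

/-- The `n`-th word of the sequence of the D0L system `s`: `s.1` is the list of the images of the letters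
`0, 1, 2, ...` (a letter without entry has the empty image), `s.2` is the axiom. -/
def word (s : List (List ℕ) × List ℕ) (n : ℕ) : List ℕ :=
  (fun w : List ℕ => w.flatMap (fun a => s.1.getD a []))^[n] s.2

/-- The sequence of `s` satisfies the locally catenative formula `is` with some cut `p`. -/
def Satisfies (s : List (List ℕ) × List ℕ) (is : List ℕ) : Prop :=
  is ≠ [] ∧ (∀ i ∈ is, 0 < i) ∧ ∃ p : ℕ, (∀ i ∈ is, i ≤ p) ∧
    ∀ n : ℕ, p ≤ n → word s n = (is.map fun i => word s (n - i)).flatten

/-- **Decidability for one end.**  There is an algorithm that decides for every D0L system `s` whether `s` is locally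
catenative and some word is a prefix of the next word or some word is a suffix of the next word; this holds iff `s`
satisfies a locally catenative formula whose first or last entry is `1`. -/
theorem result : ∃ A : List (List ℕ) × List ℕ → Bool, Computable A ∧ ∀ s,
    (A s = true ↔ (∃ is, Satisfies s is) ∧
      ((∃ n, word s n <+: word s (n + 1)) ∨ ∃ n, word s n <:+ word s (n + 1))) ∧
    (A s = true ↔ ∃ is : List ℕ, (is.head? = some 1 ∨ is.getLast? = some 1) ∧
      Satisfies s is) := by
  obtain ⟨A, hA, h1⟩ := D0L.oneEnd_decidable
  refine ⟨A, hA, fun s => ⟨(h1 s).2.trans ?_, (h1 s).1⟩⟩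
  exact and_congr D0L.lc_iff_lsat Iff.rfl

end Pool.Agent.Results.MP_374efc_lc.OneEnd
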