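import Pool.Agent.H.MP_374efc_lc.Zt.Qf

/-!
# MP_374efc_lc: it is decidable whether a D0L system is locally catenative over a code
-/

set_option autoImplicit false

namespace Pool.Agent.Results.MP_374efc_lc.OverCode

/-- The `n`-th word of the sequence of the D0L system `s`: `s.1` is the list of the images of the letters
`0, 1, 2, ...` (a letter without entry has the empty image), `s.2` is the axiom. -/
def word (s : List (List ℕ) × List ℕ) (n : ℕ) : List ℕ :=
  (fun w : List ℕ => w.flatMap (fun a => s.1.getD a []))^[n] s.2

/-- The sequence of `s` satisfies the locally catenative formula `is` with cut `p`. -/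
def Satisfies (s : List (List ℕ) × List ℕ) (is : List ℕ) (p : ℕ) : Prop :=
  is ≠ [] ∧ (∀ i ∈ is, 0 < i) ∧ (∀ i ∈ is, i ≤ p) ∧
    ∀ n : ℕ, p ≤ n → word s n = (is.map fun i => word s (n - i)).flatten

/-- The `d` words with the indices `n, n + 1, ..., n + d - 1` form a code: two products of these words are
equal only if the two sequences of factors are equal. -/
def CodeAt (s : List (List ℕ) × List ℕ) (n d : ℕ) : Prop :=
  ∀ ks ls : List ℕ, (∀ k ∈ ks, k < d) → (∀ k ∈ ls, k < d) →
    (ks.map fun k => word s (n + k)).flatten = (ls.map fun k => word s (n + k)).flatten → ks = ls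

/-- The system satisfies a formula of some depth `d` with some cut `p` such that the `d` words with the
indices `p - d, ..., p - 1` form a code. -/
def OverCode (s : List (List ℕ) × List ℕ) : Prop :=
  ∃ (is : List ℕ) (p d : ℕ), Satisfies s is p ∧ d ∈ is ∧ (∀ i ∈ is, i ≤ d) ∧ CodeAt s (p - d) d

theorem overCode_iff (s : List (List ℕ) × List ℕ) : OverCode s ↔ D0L.CLC (D0L.hs s) s.2 := by
  constructor
  · rintro ⟨is, p, d, ⟨h1, h2, h3, h4⟩, h5, h6, h7⟩
    have hdp : d ≤ p := h3 d h5
    refine ⟨p - d, d, h7, is.map (fun i => d - i), by simpa using h1, ?_, ?_⟩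
    · intro j hj
      obtain ⟨i, hi, rfl⟩ := List.mem_map.1 hj
      have e1 := h2 i hi
      have e2 := h6 i hi
      omega
    · rw [Nat.sub_add_cancel hdp, List.map_map]
      refine (h4 p le_rfl).trans ?_
      congr 1
      apply List.map_congr_left
      intro i hi
      have e2 := h6 i hi
      change word s (p - i) = word s (p - d + (d - i))
      congr 1
      omega
  · intro h
    obtain ⟨n, d, js, h1, h0, h2, h3⟩ := h.first
    refine ⟨js.map (fun j => d - j), n + d, d, ⟨?_, ?_, ?_, ?_⟩, ?_, ?_, ?_⟩
    · simpa using List.ne_nil_of_mem h0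
    · intro i hi
      obtain ⟨j, hj, rfl⟩ := List.mem_map.1 hi
      have := h2 j hj
      omega
    · intro i hi
      obtain ⟨j, hj, rfl⟩ := List.mem_map.1 hi
      omega
    · intro m hm
      obtain ⟨q, rfl⟩ := Nat.exists_eq_add_of_le' hm
      have e1 := congrArg (D0L.it (D0L.hs s) q) h3
      rw [D0L.it_prod, ← D0L.it_add] at e1
      refine e1.trans ?_
      rw [List.map_map]
      congr 1
      apply List.map_congr_left
      intro j hj
      have := h2 j hj
      change word s (q + n + j) = word s (q + (n + d) - (d - j))
      congr 1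
      omega
    · exact List.mem_map.2 ⟨0, h0, Nat.sub_zero d⟩
    · intro i hi
      obtain ⟨j, hj, rfl⟩ := List.mem_map.1 hi
      omega
    · rw [Nat.add_sub_cancel]
      exact h1

/-- **It is decidable whether a D0L system satisfies a locally catenative formula of some depth `d` with some
cut `p` such that the `d` words before the cut form a code.** -/
theorem result : ComputablePred OverCode :=
  D0L.clc_comp.of_eq fun s => (overCode_iff s).symm

end Pool.Agent.Results.MP_374efc_lc.OverCode
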