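import Pool.Agent.H.MP_374efc_lc.Uni.U4
import Pool.Agent.H.MP_374efc_lc.Zt.Kg

/-!
# MP_374efc_lc: local catenativeness is decidable for D0L systems of prime power growth

It is decidable whether a D0L system is locally catenative and has word lengths of order `q ^ n` for some prime power `q`.
In particular local catenativeness is decidable for the `q`-uniform D0L systems, `q` a prime power.
-/

set_option autoImplicit false

namespace Pool.Agent.Results.MP_374efc_lc.PrimePowerGrowth

/-- The `n`-th word of the sequence of the D0L system `s`: `s.1` is the list of the images of the letters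
`0, 1, 2, ...` (a letter without entry has the empty image), `s.2` is the axiom. -/
def word (s : List (List ℕ) × List ℕ) (n : ℕ) : List ℕ :=
  (fun w : List ℕ => w.flatMap (fun a => s.1.getD a []))^[n] s.2

/-- The sequence of `s` satisfies the locally catenative formula `is` with some cut `p`. -/
def Satisfies (s : List (List ℕ) × List ℕ) (is : List ℕ) : Prop :=
  is ≠ [] ∧ (∀ i ∈ is, 0 < i) ∧ ∃ p : ℕ, (∀ i ∈ is, i ≤ p) ∧
    ∀ n : ℕ, p ≤ n → word s n = (is.map fun i => word s (n - i)).flatten

/-- The system is locally catenative. -/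
def LocCat (s : List (List ℕ) × List ℕ) : Prop := ∃ is, Satisfies s is

/-- The lengths of the words are of order `q ^ n`: there is a constant `C` with `q ^ n ≤ C * |ω_n|` and
`|ω_n| ≤ C * q ^ n` for all `n`. -/
def GrowthOrder (s : List (List ℕ) × List ℕ) (q : ℕ) : Prop :=
  ∃ C : ℕ, ∀ n : ℕ, q ^ n ≤ C * (word s n).length ∧ (word s n).length ≤ C * q ^ n

/-- The system is `q`-uniform: its alphabet consists of the letters `0, ..., s.1.length - 1`, all of them have an image of
length `q`, and the axiom is not empty. -/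
def Uniform (s : List (List ℕ) × List ℕ) (q : ℕ) : Prop :=
  (∀ x ∈ s.1, x.length = q ∧ ∀ a ∈ x, a < s.1.length) ∧ s.2 ≠ [] ∧ ∀ a ∈ s.2, a < s.1.length

theorem growth_of_uniform {s : List (List ℕ) × List ℕ} {q : ℕ} (h : Uniform s q) : GrowthOrder s q := by
  obtain ⟨h1, h2, h3⟩ := h
  have key : ∀ n, (word s n).length = q ^ n * s.2.length ∧ ∀ a ∈ word s n, a < s.1.length := by
    intro n
    induction n with
    | zero => exact ⟨by rw [pow_zero, one_mul]; rfl, h3⟩
    | succ n ih =>
      have e1 : word s (n + 1) = (word s n).flatMap (fun a => s.1.getD a []) := by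
        unfold word
        rw [Function.iterate_succ_apply']
      have e2 : ∀ w : List ℕ, (∀ a ∈ w, a < s.1.length) →
          (w.flatMap (fun a => s.1.getD a [])).length = q * w.length ∧
            ∀ a ∈ w.flatMap (fun a => s.1.getD a []), a < s.1.length := by
        intro w hw
        constructor
        · induction w with
          | nil => simp
          | cons b w ihw =>
            rw [List.flatMap_cons, List.length_append, ihw (fun a ha => hw a (List.mem_cons_of_mem _ ha)),
              List.length_cons]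
            have hb := hw b List.mem_cons_self
            rw [List.getD_eq_getElem _ _ hb, (h1 _ (List.getElem_mem hb)).1]
            ring
        · intro a ha
          obtain ⟨b, hb, hab⟩ := List.mem_flatMap.1 ha
          have hb' := hw b hb
          rw [List.getD_eq_getElem _ _ hb'] at hab
          exact (h1 _ (List.getElem_mem hb')).2 a hab
      obtain ⟨e3, e4⟩ := e2 _ ih.2
      refine ⟨?_, ?_⟩
      · rw [e1, e3, ih.1, pow_succ]
        ring
      · rw [e1]
        exact e4
  refine ⟨s.2.length, fun n => ?_⟩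
  have h4 : 0 < s.2.length := List.length_pos_of_ne_nil h2
  rw [(key n).1]
  constructor
  · calc q ^ n ≤ q ^ n * (s.2.length * s.2.length) := Nat.le_mul_of_pos_right _ (Nat.mul_pos h4 h4)
      _ = s.2.length * (q ^ n * s.2.length) := by ring
  · rw [mul_comm]

theorem kraft {q p : ℕ} (hq : 0 < q) (is : List ℕ) (h : ∀ i ∈ is, i ≤ p) :
    q ^ p = ((is.map (fun i => p - i)).map (fun j => q ^ j)).sum ↔
      (is.map fun i => (1 : ℚ) / (q : ℚ) ^ i).sum = 1 := by
  have hq' : (0 : ℚ) < (q : ℚ) ^ p := pow_pos (by exact_mod_cast hq) p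
  have key : ∀ L : List ℕ, (∀ i ∈ L, i ≤ p) →
      ((((L.map (fun i => p - i)).map (fun j => q ^ j)).sum : ℕ) : ℚ) =
        (q : ℚ) ^ p * (L.map fun i => (1 : ℚ) / (q : ℚ) ^ i).sum := by
    intro L
    induction L with
    | nil => simp
    | cons a L ih =>
      intro hL
      have ha := hL a List.mem_cons_self
      simp only [List.map_cons, List.sum_cons]
      rw [Nat.cast_add, ih (fun i hi => hL i (List.mem_cons_of_mem _ hi)), mul_add]
      congr 1
      have hqa : (q : ℚ) ^ a ≠ 0 := (pow_pos (by exact_mod_cast hq) a).ne'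
      rw [Nat.cast_pow, mul_one_div, eq_div_iff hqa, ← pow_add, Nat.sub_add_cancel ha]
  constructor
  · intro h1
    have h2 := key is h
    rw [← h1, Nat.cast_pow] at h2
    exact mul_left_cancel₀ hq'.ne' (by rw [← h2, mul_one])
  · intro h1
    have h2 := key is h
    rw [h1, mul_one] at h2
    have h3 : ((q ^ p : ℕ) : ℚ) = ((((is.map (fun i => p - i)).map (fun j => q ^ j)).sum : ℕ) : ℚ) := by
      rw [h2, Nat.cast_pow]
    exact_mod_cast h3

theorem rel_of_satisfies {s : List (List ℕ) × List ℕ} {is : List ℕ} (h : Satisfies s is) :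
    ∃ p : ℕ, (∀ i ∈ is, i ≤ p) ∧ is.map (fun i => p - i) ≠ [] ∧
      (∀ j ∈ is.map (fun i => p - i), j < p) ∧ D0L.it (D0L.hs s) p s.2 =
        ((is.map (fun i => p - i)).map (fun j => D0L.it (D0L.hs s) j s.2)).flatten := by
  obtain ⟨h1, h2, p, h3, h4⟩ := h
  refine ⟨p, h3, by simpa using h1, ?_, ?_⟩
  · intro j hj
    obtain ⟨i, hi, rfl⟩ := List.mem_map.1 hj
    have e1 := h2 i hi
    have e2 := h3 i hi
    omega
  · rw [List.map_map]
    exact h4 p le_rfl

theorem formula_iff (s : List (List ℕ) × List ℕ) : (LocCat s ∧ ∃ q, IsPrimePow q ∧ GrowthOrder s q) ↔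
    (∀ n, word s n ≠ []) ∧ ∃ is, Satisfies s is ∧
      ∃ q : ℕ, IsPrimePow q ∧ (is.map fun i => (1 : ℚ) / (q : ℚ) ^ i).sum = 1 := by
  constructor
  · rintro ⟨⟨is, hs⟩, q, hq, hg⟩
    obtain ⟨p, h1, h2, h3, h4⟩ := rel_of_satisfies hs
    refine ⟨?_, is, hs, q, hq, ?_⟩
    · intro n hn
      obtain ⟨C, hC⟩ := hg
      have h5 := (hC n).1
      rw [hn, List.length_nil, Nat.mul_zero] at h5
      exact absurd (pow_pos hq.pos n) (Nat.not_lt.2 h5)
    · rw [← kraft hq.pos is h1]
      exact D0L.Uni.root_of_growth h2 h3 h4 hq.pos hg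
  · rintro ⟨hne, is, hs, q, hq, hk⟩
    obtain ⟨p, h1, h2, h3, h4⟩ := rel_of_satisfies hs
    refine ⟨⟨is, hs⟩, q, hq, ?_⟩
    exact D0L.Uni.growth_of_root h3 h4 hne hq.pos ((kraft hq.pos is h1).2 hk)

/-- **Prime power growth.**  There is an algorithm that decides for every D0L system `s` whether `s` is locally catenative
and has word lengths of order `q ^ n` for some prime power `q`; this holds iff no word of `s` is empty and `s` satisfies a
locally catenative formula `(i_1, ..., i_k)` with `q ^ (-i_1) + ... + q ^ (-i_k) = 1` for some prime power `q`.  For the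
`q`-uniform systems, `q` a prime power, it decides whether they are locally catenative. -/
theorem result : ∃ A : List (List ℕ) × List ℕ → Bool, Computable A ∧ ∀ s,
    (A s = true ↔ LocCat s ∧ ∃ q, IsPrimePow q ∧ GrowthOrder s q) ∧
    (A s = true ↔ (∀ n, word s n ≠ []) ∧ ∃ is, Satisfies s is ∧
      ∃ q : ℕ, IsPrimePow q ∧ (is.map fun i => (1 : ℚ) / (q : ℚ) ^ i).sum = 1) ∧
    ∀ q, IsPrimePow q → Uniform s q → (A s = true ↔ LocCat s) := by
  obtain ⟨hd, h1⟩ := D0L.Uni.pg_comp
  have h2 : ∀ s, (decide (D0L.LC (D0L.hs s) s.2 ∧ ∃ q, IsPrimePow q ∧ D0L.Uni.Gq q (D0L.hs s) s.2) = true) ↔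
      LocCat s ∧ ∃ q, IsPrimePow q ∧ GrowthOrder s q := by
    intro s
    rw [decide_eq_true_iff]
    exact and_congr D0L.lc_iff_lsat Iff.rfl
  exact ⟨_, h1, fun s => ⟨h2 s, (h2 s).trans (formula_iff s), fun q hq hu =>
    (h2 s).trans ⟨fun h => h.1, fun h => ⟨h, q, hq, growth_of_uniform hu⟩⟩⟩⟩

end Pool.Agent.Results.MP_374efc_lc.PrimePowerGrowth
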